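import Pool.Agent.Mg.Fb9bf0c.G8705f5

set_option autoImplicit false

namespace Pool.Agent.Results.MP_b9bf0c_nt.ExceptionalSet

open Pool.Agent.MP_b9bf0c_nt

/-- All but `O(X ^ (3/4 + ε))` odd integers up to `X` are `x ^ 2 + 2 y ^ 2 + 3 z ^ 2` with
`x + y + z` a square. -/
theorem result : ∀ ε : ℝ, 0 < ε → ∃ C : ℝ, ∀ X : ℕ,
    (Set.ncard {n : ℕ | n ≤ X ∧ Odd n ∧ ¬ ∃ x y z m : ℤ,
      (n : ℤ) = x ^ 2 + 2 * y ^ 2 + 3 * z ^ 2 ∧ x + y + z = m ^ 2} : ℝ) ≤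
      C * (X : ℝ) ^ (3 / 4 + ε) := by
  classical
  intro ε hε
  obtain ⟨C, h⟩ := main hε
  refine ⟨C, fun X => le_trans (le_of_eq ?_) (h X)⟩
  rw [← Set.ncard_coe_finset]
  congr 2
  ext n
  simp only [Set.mem_ofPred_eq, Finset.coe_filter, Finset.mem_Ioc, MP_b9bf0c_nt.Rep]
  exact ⟨fun ⟨a, b, c⟩ => ⟨⟨b.pos, a⟩, b, c⟩, fun ⟨a, b, c⟩ => ⟨a.2, b, c⟩⟩

end Pool.Agent.Results.MP_b9bf0c_nt.ExceptionalSet
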